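import Mathlib

namespace Pool.Agent.Results.MP_56f6b7_co.Balanced16

open Matrix

/-- Butson Hadamard matrix: entries are `w`-th roots of unity and `H H* = v I`. -/
def IsBH (w : ℕ) {v : ℕ} (H : Matrix (Fin v) (Fin v) ℂ) : Prop :=
  (∀ i j, H i j ^ w = 1) ∧ H * Hᴴ = (v : ℂ) • (1 : Matrix (Fin v) (Fin v) ℂ)

/-- Every entry of the first row and of the first column equals `1`. -/
def Normalised {v : ℕ} (H : Matrix (Fin v) (Fin v) ℂ) : Prop :=
  ∀ i j, (i.val = 0 ∨ j.val = 0) → H i j = 1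

/-- Each row other than the first contains every `w`-th root of unity exactly `v / w` times. -/
def RowBalanced (w : ℕ) {v : ℕ} (H : Matrix (Fin v) (Fin v) ℂ) : Prop :=
  ∀ i : Fin v, i.val ≠ 0 → ∀ h : ℂ, h ^ w = 1 → {j | H i j = h}.ncard = v / w

/-- Each column other than the first contains every `w`-th root of unity exactly `v / w` times. -/
def ColBalanced (w : ℕ) {v : ℕ} (H : Matrix (Fin v) (Fin v) ℂ) : Prop :=
  ∀ j : Fin v, j.val ≠ 0 → ∀ h : ℂ, h ^ w = 1 → {i | H i j = h}.ncard = v / w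

def e : Fin 16 → Fin 16 → Fin 4 :=
  ![![0, 0, 0, 0, 0, 0, 0, 0, 0, 0, 0, 0, 0, 0, 0, 0],
    ![0, 0, 0, 0, 1, 1, 1, 1, 2, 2, 2, 2, 3, 3, 3, 3],
    ![0, 0, 0, 1, 1, 3, 3, 3, 0, 2, 2, 3, 1, 1, 2, 2],
    ![0, 0, 2, 1, 3, 0, 2, 1, 3, 0, 1, 3, 2, 2, 1, 3],
    ![0, 3, 0, 2, 3, 1, 2, 2, 1, 3, 0, 1, 0, 1, 2, 3],
    ![0, 2, 1, 2, 0, 2, 0, 0, 3, 1, 3, 2, 3, 1, 1, 3],
    ![0, 1, 3, 0, 3, 3, 0, 2, 2, 2, 3, 1, 1, 2, 1, 0],
    ![0, 3, 1, 0, 2, 2, 3, 1, 0, 0, 3, 1, 2, 3, 2, 1],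
    ![0, 2, 3, 2, 1, 3, 3, 1, 1, 3, 1, 2, 2, 0, 0, 0],
    ![0, 3, 2, 2, 2, 0, 1, 3, 3, 1, 2, 1, 1, 0, 3, 0],
    ![0, 1, 1, 3, 3, 3, 2, 0, 2, 2, 1, 0, 3, 0, 2, 1],
    ![0, 3, 2, 1, 0, 2, 1, 3, 1, 3, 2, 0, 3, 2, 0, 1],
    ![0, 2, 1, 3, 0, 0, 2, 2, 1, 1, 3, 3, 1, 3, 0, 2],
    ![0, 2, 3, 1, 2, 1, 3, 0, 2, 1, 0, 3, 0, 2, 3, 1],
    ![0, 1, 2, 3, 2, 1, 0, 3, 0, 3, 1, 2, 0, 3, 1, 2],
    ![0, 1, 3, 3, 1, 2, 1, 2, 3, 0, 0, 0, 2, 1, 3, 2]]

def g : Fin 4 → GaussianInt := ![1, ⟨0, 1⟩, -1, ⟨0, -1⟩]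

noncomputable def r (k : Fin 4) : ℂ := GaussianInt.toComplex (g k)

theorem r_inj : Function.Injective r := by
  intro a b h
  have := GaussianInt.toComplex_injective h
  clear h
  revert a b; decide

theorem r_pow (k : Fin 4) : r k ^ 4 = 1 := by
  unfold r
  rw [← map_pow]
  have : g k ^ 4 = 1 := by revert k; decide
  rw [this, map_one]

theorem r_surj (h : ℂ) (hh : h ^ 4 = 1) : ∃ k, h = r k := by
  have e0 : r 0 = 1 := by simp [r, g]
  have e1 : r 1 = Complex.I := by simp [r, g, GaussianInt.toComplex_def']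
  have e2 : r 2 = -1 := by simp [r, g]
  have e3 : r 3 = -Complex.I := by simp [r, g, GaussianInt.toComplex_def']
  have : (h - 1) * (h - Complex.I) * (h + 1) * (h + Complex.I) = 0 := by
    linear_combination hh - (h ^ 2 - 1) * Complex.I_sq
  simp only [mul_eq_zero] at this
  rcases this with ((h1 | h1) | h1) | h1
  · exact ⟨0, by rw [e0]; linear_combination h1⟩
  · exact ⟨1, by rw [e1]; linear_combination h1⟩
  · exact ⟨2, by rw [e2]; linear_combination h1⟩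
  · exact ⟨3, by rw [e3]; linear_combination h1⟩

theorem r_div (a b : Fin 4) : r a * (r b)⁻¹ = r (a - b) := by
  have hb : r b ≠ 0 := fun h => by have := r_pow b; rw [h] at this; simp at this
  rw [mul_inv_eq_iff_eq_mul₀ hb]
  unfold r
  rw [← map_mul]
  congr 1
  clear hb
  revert a b; decide

theorem cnt (f : Fin 16 → Fin 4) (k : Fin 4) :
    {j | r (f j) = r k}.ncard = (Finset.univ.filter (fun j => f j = k)).card := by
  rw [← Set.ncard_coe_finset]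
  congr 1
  ext j
  simp [r_inj.eq_iff]

theorem result : ∃ (w v : ℕ) (H : Matrix (Fin v) (Fin v) ℂ), 2 ≤ w ∧ 1 ≤ v ∧ w ∣ v ∧
    IsBH w H ∧ Normalised H ∧ RowBalanced w H ∧ ColBalanced w H ∧
    ∃ (i k : Fin v) (h : ℂ), i ≠ k ∧ h ^ w = 1 ∧ {j | H i j * (H k j)⁻¹ = h}.ncard ≠ v / w := by
  refine ⟨4, 16, fun i j => r (e i j), by norm_num, by norm_num, by norm_num,
    ⟨fun i j => r_pow _, ?_⟩, ?_, ?_, ?_, 1, 2, r 0, by decide, r_pow _, ?_⟩
  · ext i k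
    have key : ∀ i k : Fin 16, ∑ j, g (e i j) * star (g (e k j)) = if i = k then 16 else 0 := by
      decide +kernel
    have := congrArg GaussianInt.toComplex (key i k)
    rw [map_sum] at this
    simp only [map_mul, GaussianInt.toComplex_star] at this
    rw [Matrix.mul_apply]
    simp only [Matrix.conjTranspose_apply, r, Matrix.smul_apply, Matrix.one_apply, smul_eq_mul]
    refine Eq.trans this ?_
    split_ifs <;> simp [map_ofNat]
  · intro i j hij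
    have : ∀ i j : Fin 16, (i.val = 0 ∨ j.val = 0) → e i j = 0 := by decide +kernel
    simp only [this i j hij]
    simp [r, g]
  · intro i hi h hh
    obtain ⟨k, rfl⟩ := r_surj h hh
    rw [cnt (fun j => e i j) k]
    clear hh
    revert i k; decide +kernel
  · intro j hj h hh
    obtain ⟨k, rfl⟩ := r_surj h hh
    rw [cnt (fun i => e i j) k]
    clear hh
    revert j k; decide +kernel
  · simp only [r_div]
    rw [cnt (fun j => e 1 j - e 2 j) 0]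
    decide +kernel

end Pool.Agent.Results.MP_56f6b7_co.Balanced16
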